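import Mathlib

/-!
# MP_6f2e8a_an: the Diophantine condition is not necessary for entire lattice series

The matrix `√2 I₂` has property (H) and is not badly approximable.
-/

open Finset Metric
open scoped Real

namespace Pool.Agent.Results.MP_6f2e8a_an.NotNecessary

/-- The Euclidean norm of an integer vector. -/
noncomputable def nrm {n : ℕ} (k : Fin n → ℤ) : ℝ := √(∑ i, (k i : ℝ) ^ 2)

/-- The term of the series `f_a(s)` belonging to `k`, without the character (`0` for `k = 0`). -/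
noncomputable def term {n : ℕ} (P : MvPolynomial (Fin n) ℂ) (s : ℂ) (k : Fin n → ℤ) : ℂ :=
  if k = 0 then 0 else MvPolynomial.eval (fun i => (k i : ℂ)) P * (nrm k : ℂ) ^ (-s)

/-- The character `e^(2 π i k·a)`. -/
noncomputable def chi {n : ℕ} (a : Fin n → ℝ) (k : Fin n → ℤ) : ℂ :=
  Complex.exp (2 * π * Complex.I * ((∑ i, (k i : ℝ) * a i : ℝ) : ℂ))

/-- `f_a(s) = ∑' P(k) ‖k‖^(-s) e^(2 π i k·a)`, the sum over the `k ≠ 0` in `ℤ^n`. -/
noncomputable def f {n : ℕ} (P : MvPolynomial (Fin n) ℂ) (a : Fin n → ℝ) (s : ℂ) : ℂ :=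
  ∑' k : Fin n → ℤ, term P s k * chi a k

/-- The rapidly decreasing sequences on `(ℤ^n)^q`. -/
def IsRapid {n q : ℕ} (b : (Fin q → Fin n → ℤ) → ℂ) : Prop :=
  ∀ m : Fin q → Fin n → ℕ, ∃ C : ℝ, ∀ l, (∏ i, ∏ j, |(l i j : ℝ)| ^ m i j) * ‖b l‖ ≤ C

/-- `g₀(s) = ∑ b(l) f_{Θ ∑ ε_i l_i}(s)`, the sum over the `l` with `∑ ε_i l_i ≠ 0`. -/
noncomputable def g₀ {n q : ℕ} (Θ : Matrix (Fin n) (Fin n) ℝ) (P : MvPolynomial (Fin n) ℂ)
    (b : (Fin q → Fin n → ℤ) → ℂ) (ε : Fin q → ℤ) (s : ℂ) : ℂ :=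
  ∑' l : Fin q → Fin n → ℤ, if ∑ i, ε i • l i = 0 then 0 else
    b l * f P (Θ.mulVec fun j => (((∑ i, ε i • l i) j : ℤ) : ℝ)) s

/-- Property (H). -/
def PropertyH {n : ℕ} (Θ : Matrix (Fin n) (Fin n) ℝ) : Prop :=
  ∀ q : ℕ, 1 ≤ q → ∀ (d : ℕ) (P : MvPolynomial (Fin n) ℂ), P.IsHomogeneous d →
    ∀ b : (Fin q → Fin n → ℤ) → ℂ, IsRapid b →
    ∀ ε : Fin q → ℤ, (∀ i, ε i = -1 ∨ ε i = 0 ∨ ε i = 1) →
      ∃ G : ℂ → ℂ, Differentiable ℂ G ∧ ∀ s : ℂ, (n + d : ℝ) < s.re → G s = g₀ Θ P b ε s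

/-- Badly approximable vectors. -/
def BadVector {n : ℕ} (a : Fin n → ℝ) : Prop :=
  ∃ δ : ℝ, 0 < δ ∧ ∃ c : ℝ, 0 < c ∧ ∀ v : Fin n → ℤ, v ≠ 0 → ∀ m : ℤ,
    c * nrm v ^ (-δ) ≤ |(∑ i, (v i : ℝ) * a i) - m|

/-- Badly approximable matrices. -/
def BadMatrix {n : ℕ} (Θ : Matrix (Fin n) (Fin n) ℝ) : Prop :=
  ∃ u : Fin n → ℤ, BadVector (Θ.transpose.mulVec fun j => (u j : ℝ))

section differences

lemma fwdDiff_bound {φ : ℂ → ℂ} {R B ρ : ℝ} (hρ : 0 < ρ)
    (hφ : DifferentiableOn ℂ φ (ball 0 R)) (hb : ∀ z ∈ ball (0 : ℂ) R, ‖φ z‖ ≤ B) (j : ℕ) :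
    DifferentiableOn ℂ ((fwdDiff 1)^[j] φ) (ball 0 (R - j * (1 + ρ))) ∧
      ∀ z ∈ ball (0 : ℂ) (R - j * (1 + ρ)), ‖(fwdDiff 1)^[j] φ z‖ ≤ B / ρ ^ j := by
  induction j with
  | zero =>
    have e : R - ((0 : ℕ) : ℝ) * (1 + ρ) = R := by simp
    rw [e, pow_zero, div_one]
    exact ⟨hφ, hb⟩
  | succ j ih =>
    obtain ⟨ih1, ih2⟩ := ih
    set ψ := (fwdDiff 1)^[j] φ with hψ
    set R' := R - j * (1 + ρ) with hR'
    have hR2 : R - ((j + 1 : ℕ) : ℝ) * (1 + ρ) = R' - 1 - ρ := by rw [hR']; push_cast; ring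
    rw [hR2, Function.iterate_succ_apply']
    have hsub : ball (0 : ℂ) (R' - 1 - ρ) ⊆ ball 0 R' := ball_subset_ball (by linarith)
    have hshift : ∀ z ∈ ball (0 : ℂ) (R' - 1 - ρ), z + 1 ∈ ball (0 : ℂ) (R' - ρ) := by
      intro z hz
      rw [mem_ball_zero_iff] at hz ⊢
      calc ‖z + 1‖ ≤ ‖z‖ + ‖(1 : ℂ)‖ := norm_add_le _ _
        _ < R' - ρ := by rw [norm_one]; linarith
    constructor
    · have h1 : DifferentiableOn ℂ (fun z => ψ (z + 1)) (ball 0 (R' - 1 - ρ)) := by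
        refine DifferentiableOn.comp (t := ball 0 R') ih1 (by fun_prop) fun z hz => ?_
        exact ball_subset_ball (by linarith) (hshift z hz)
      exact h1.sub (ih1.mono hsub)
    · intro z hz
      have hd : ∀ w ∈ ball (0 : ℂ) (R' - ρ), DifferentiableAt ℂ ψ w := fun w hw =>
        ih1.differentiableAt (isOpen_ball.mem_nhds (ball_subset_ball (by linarith) hw))
      have hder : ∀ w ∈ ball (0 : ℂ) (R' - ρ), ‖deriv ψ w‖ ≤ B / ρ ^ (j + 1) := by
        intro w hw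
        rw [mem_ball_zero_iff] at hw
        have hcl : closedBall w ρ ⊆ ball 0 R' := by
          intro y hy
          rw [mem_closedBall, dist_eq_norm] at hy
          rw [mem_ball_zero_iff]
          calc ‖y‖ = ‖(y - w) + w‖ := by ring_nf
            _ ≤ ‖y - w‖ + ‖w‖ := norm_add_le _ _
            _ < R' := by linarith
        have h := Complex.norm_deriv_le_of_forall_mem_sphere_norm_le (c := w) (R := ρ)
          (C := B / ρ ^ j) (f := ψ) hρ
          ((ih1.mono hcl).diffContOnCl_ball subset_rfl)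
          (fun y hy => ih2 y (hcl (sphere_subset_closedBall hy)))
        refine h.trans (le_of_eq ?_)
        rw [pow_succ, div_div]
      have hz0 : z ∈ ball (0 : ℂ) (R' - ρ) := ball_subset_ball (by linarith) hz
      have h := (convex_ball (0 : ℂ) (R' - ρ)).norm_image_sub_le_of_norm_deriv_le hd hder hz0
        (hshift z hz)
      simpa [fwdDiff] using h

end differences

section bounds

lemma eval_bound {n d : ℕ} {P : MvPolynomial (Fin n) ℂ} (hP : P.IsHomogeneous d) :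
    ∃ C : ℝ, 0 ≤ C ∧ ∀ (x : Fin n → ℂ) (R : ℝ), 0 ≤ R → (∀ i, ‖x i‖ ≤ R) →
      ‖MvPolynomial.eval x P‖ ≤ C * R ^ d := by
  refine ⟨∑ m ∈ P.support, ‖P.coeff m‖, Finset.sum_nonneg fun _ _ => norm_nonneg _,
    fun x R hR hx => ?_⟩
  rw [MvPolynomial.eval_eq', Finset.sum_mul]
  refine (norm_sum_le _ _).trans (Finset.sum_le_sum fun m hm => ?_)
  rw [norm_mul, norm_prod]
  refine mul_le_mul_of_nonneg_left ?_ (norm_nonneg _)
  have h1 : ∑ i, m i = d := by
    have := hP (MvPolynomial.mem_support_iff.mp hm)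
    rw [← this]
    simp [Finsupp.weight_apply, Finsupp.sum_fintype]
  rw [← h1, ← Finset.prod_pow_eq_pow_sum]
  refine Finset.prod_le_prod (fun i _ => norm_nonneg _) fun i _ => ?_
  rw [norm_pow]
  exact pow_le_pow_left₀ (norm_nonneg _) (hx i) _

lemma nrm_sq {n : ℕ} (k : Fin n → ℤ) : nrm k ^ 2 = ∑ i, (k i : ℝ) ^ 2 :=
  Real.sq_sqrt (Finset.sum_nonneg fun _ _ => sq_nonneg _)

lemma nrm_nonneg {n : ℕ} (k : Fin n → ℤ) : 0 ≤ nrm k := Real.sqrt_nonneg _

lemma abs_le_nrm {n : ℕ} (k : Fin n → ℤ) (i : Fin n) : |(k i : ℝ)| ≤ nrm k := by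
  refine Real.abs_le_sqrt ?_
  exact Finset.single_le_sum (f := fun i => (k i : ℝ) ^ 2) (fun _ _ => sq_nonneg _)
    (Finset.mem_univ i)

lemma one_le_nrm {n : ℕ} {k : Fin n → ℤ} (hk : k ≠ 0) : 1 ≤ nrm k := by
  obtain ⟨i, hi⟩ := Function.ne_iff.mp hk
  refine le_trans ?_ (abs_le_nrm k i)
  have : (1 : ℤ) ≤ |k i| := Int.one_le_abs hi
  exact_mod_cast this

lemma norm_le_nrm {n : ℕ} (k : Fin n → ℤ) : ‖k‖ ≤ nrm k := by
  refine (pi_norm_le_iff_of_nonneg (nrm_nonneg k)).mpr fun i => ?_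
  rw [Int.norm_eq_abs]
  exact abs_le_nrm k i

lemma nrm_finite {n : ℕ} (R : ℝ) : {k : Fin n → ℤ | nrm k < R}.Finite := by
  refine (Set.finite_Icc (fun _ => -⌈R⌉ : Fin n → ℤ) (fun _ => ⌈R⌉)).subset fun k hk => ?_
  have h1 : nrm k < R := hk
  have h2 : ∀ i, |(k i : ℝ)| ≤ ⌈R⌉ := fun i =>
    (abs_le_nrm k i).trans (h1.le.trans (Int.le_ceil R))
  constructor
  · intro i
    have := (abs_le.mp (h2 i)).1
    show -⌈R⌉ ≤ k i
    exact_mod_cast this
  · intro i
    have := (abs_le.mp (h2 i)).2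
    show k i ≤ ⌈R⌉
    exact_mod_cast this

/-- the holomorphic interpolation of the terms along a coordinate direction -/
noncomputable def ww {n : ℕ} (k : Fin n → ℤ) (j : Fin n) (z : ℂ) : ℂ :=
  (nrm k : ℂ) ^ 2 + 2 * (k j : ℂ) * z + z ^ 2

noncomputable def phi {n : ℕ} (P : MvPolynomial (Fin n) ℂ) (s : ℂ) (k : Fin n → ℤ) (j : Fin n)
    (z : ℂ) : ℂ :=
  MvPolynomial.eval (fun i => (k i : ℂ) + if i = j then z else 0) P * ww k j z ^ (-s / 2)

lemma ww_near {n : ℕ} (k : Fin n → ℤ) (j : Fin n) {z : ℂ} (hz : ‖z‖ < nrm k / 4) :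
    ‖ww k j z - ((nrm k ^ 2 : ℝ) : ℂ)‖ ≤ 9 / 16 * nrm k ^ 2 := by
  have e : ww k j z - ((nrm k ^ 2 : ℝ) : ℂ) = 2 * (k j : ℂ) * z + z ^ 2 := by
    unfold ww; push_cast; ring
  rw [e]
  have h1 : ‖(k j : ℂ)‖ ≤ nrm k := by
    rw [Complex.norm_intCast]
    exact abs_le_nrm k j
  have hN := nrm_nonneg k
  calc ‖2 * (k j : ℂ) * z + z ^ 2‖ ≤ ‖2 * (k j : ℂ) * z‖ + ‖z ^ 2‖ := norm_add_le _ _
    _ = 2 * ‖(k j : ℂ)‖ * ‖z‖ + ‖z‖ ^ 2 := by
      rw [norm_mul, norm_mul, norm_pow, Complex.norm_ofNat]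
    _ ≤ 2 * nrm k * (nrm k / 4) + (nrm k / 4) ^ 2 := by
      gcongr
    _ = 9 / 16 * nrm k ^ 2 := by ring

lemma ww_bounds {n : ℕ} (k : Fin n → ℤ) (j : Fin n) {z : ℂ} (hz : ‖z‖ < nrm k / 4) :
    0 < (ww k j z).re ∧ nrm k ^ 2 / 4 ≤ ‖ww k j z‖ ∧ ‖ww k j z‖ ≤ 4 * nrm k ^ 2 := by
  have h := ww_near k j hz
  have hN : 0 < nrm k := by
    have := norm_nonneg z
    linarith
  have hN2 : 0 < nrm k ^ 2 := by positivity
  have h1 : |(ww k j z).re - nrm k ^ 2| ≤ 9 / 16 * nrm k ^ 2 := by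
    have := Complex.abs_re_le_norm (ww k j z - ((nrm k ^ 2 : ℝ) : ℂ))
    rw [Complex.sub_re, Complex.ofReal_re] at this
    exact this.trans h
  have h2 := abs_le.mp h1
  have h3 : (ww k j z).re ≤ ‖ww k j z‖ := Complex.re_le_norm _
  refine ⟨by linarith [h2.1], by linarith [h2.1], ?_⟩
  calc ‖ww k j z‖ = ‖(ww k j z - ((nrm k ^ 2 : ℝ) : ℂ)) + ((nrm k ^ 2 : ℝ) : ℂ)‖ := by ring_nf
    _ ≤ ‖ww k j z - ((nrm k ^ 2 : ℝ) : ℂ)‖ + ‖((nrm k ^ 2 : ℝ) : ℂ)‖ := norm_add_le _ _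
    _ ≤ 9 / 16 * nrm k ^ 2 + nrm k ^ 2 := by
      rw [Complex.norm_real, Real.norm_eq_abs, abs_of_pos hN2]
      linarith
    _ ≤ 4 * nrm k ^ 2 := by linarith

lemma cpow_bound {w s : ℂ} {N B : ℝ} (hN : 0 < N) (hw : N ^ 2 / 4 ≤ ‖w‖) (hw' : ‖w‖ ≤ 4 * N ^ 2)
    (hs : ‖s‖ ≤ B) : ‖w ^ (-s / 2)‖ ≤ Real.exp (B + 2 * B) * N ^ (-s.re) := by
  have hB : 0 ≤ B := (norm_nonneg s).trans hs
  have hN2 : 0 < N ^ 2 := by positivity
  have hw0 : 0 < ‖w‖ := by linarith
  have hwne : w ≠ 0 := norm_pos_iff.mp hw0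
  rw [Complex.norm_cpow_of_ne_zero hwne]
  have hre : (-s / 2).re = -s.re / 2 := by simp
  have him : (-s / 2).im = -s.im / 2 := by simp
  rw [hre, him, div_eq_mul_inv, ← Real.exp_neg]
  have hsre : |s.re| ≤ B := (Complex.abs_re_le_norm s).trans hs
  have hsim : |s.im| ≤ B := (Complex.abs_im_le_norm s).trans hs
  have h1 : ‖w‖ ^ (-s.re / 2) ≤ Real.exp B * N ^ (-s.re) := by
    set u := ‖w‖ / N ^ 2 with hu
    have hu0 : 0 < u := by positivity
    have hu1 : 1 / 4 ≤ u := by rw [hu, le_div_iff₀ hN2]; linarith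
    have hu2 : u ≤ 4 := by rw [hu, div_le_iff₀ hN2]; linarith
    have e1 : ‖w‖ = u * N ^ 2 := by rw [hu]; field_simp
    rw [e1, Real.mul_rpow hu0.le hN2.le]
    have e2 : (N ^ 2) ^ (-s.re / 2) = N ^ (-s.re) := by
      rw [← Real.rpow_natCast N 2, ← Real.rpow_mul hN.le]
      congr 1
      push_cast
      ring
    rw [e2]
    refine mul_le_mul_of_nonneg_right ?_ (Real.rpow_nonneg hN.le _)
    rw [Real.rpow_def_of_pos hu0]
    refine Real.exp_le_exp.mpr ?_
    have hlog4 : Real.log 4 ≤ 2 := by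
      rw [Real.log_le_iff_le_exp (by norm_num)]
      have := Real.add_one_le_exp (1 : ℝ)
      have h2 : Real.exp 2 = Real.exp 1 * Real.exp 1 := by rw [← Real.exp_add]; norm_num
      rw [h2]
      nlinarith
    have hl : |Real.log u| ≤ 2 := by
      rw [abs_le]
      constructor
      · have : Real.log (1 / 4) ≤ Real.log u := Real.log_le_log (by norm_num) hu1
        rw [one_div, Real.log_inv] at this
        linarith
      · exact (Real.log_le_log hu0 hu2).trans hlog4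
    calc Real.log u * (-s.re / 2) ≤ |Real.log u * (-s.re / 2)| := le_abs_self _
      _ = |Real.log u| * (|s.re| / 2) := by
        rw [abs_mul, abs_div, abs_neg, abs_two]
      _ ≤ 2 * (B / 2) := by gcongr
      _ = B := by ring
  have h2 : Real.exp (-(w.arg * (-s.im / 2))) ≤ Real.exp (2 * B) := by
    refine Real.exp_le_exp.mpr ?_
    have ha : |w.arg| ≤ 4 := (Complex.abs_arg_le_pi w).trans Real.pi_le_four
    calc -(w.arg * (-s.im / 2)) ≤ |-(w.arg * (-s.im / 2))| := le_abs_self _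
      _ = |w.arg| * (|s.im| / 2) := by rw [abs_neg, abs_mul, abs_div, abs_neg, abs_two]
      _ ≤ 4 * (B / 2) := by gcongr
      _ = 2 * B := by ring
  calc ‖w‖ ^ (-s.re / 2) * Real.exp (-(w.arg * (-s.im / 2)))
      ≤ (Real.exp B * N ^ (-s.re)) * Real.exp (2 * B) := by gcongr
    _ = Real.exp (B + 2 * B) * N ^ (-s.re) := by rw [Real.exp_add]; ring

lemma phi_bound {n d : ℕ} {P : MvPolynomial (Fin n) ℂ} (hP : P.IsHomogeneous d) (B : ℝ) :
    ∃ C : ℝ, 0 ≤ C ∧ ∀ (s : ℂ) (k : Fin n → ℤ) (j : Fin n) (z : ℂ), ‖s‖ ≤ B →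
      ‖z‖ < nrm k / 4 → ‖phi P s k j z‖ ≤ C * nrm k ^ ((d : ℝ) - s.re) := by
  obtain ⟨C, hC0, hC⟩ := eval_bound hP
  refine ⟨C * 2 ^ d * Real.exp (B + 2 * B), by positivity, fun s k j z hs hz => ?_⟩
  have hN : 0 < nrm k := by
    have := norm_nonneg z
    linarith
  obtain ⟨hre, hw1, hw2⟩ := ww_bounds k j hz
  unfold phi
  rw [norm_mul]
  have h1 : ‖MvPolynomial.eval (fun i => (k i : ℂ) + if i = j then z else 0) P‖ ≤
      C * (2 * nrm k) ^ d := by
    refine hC _ _ (by positivity) fun i => ?_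
    have h2 : ‖(k i : ℂ)‖ ≤ nrm k := by
      rw [Complex.norm_intCast]
      exact abs_le_nrm k i
    refine (norm_add_le _ _).trans ?_
    have h3 : ‖(if i = j then z else 0)‖ ≤ nrm k := by
      split_ifs
      · linarith
      · rw [norm_zero]; exact hN.le
    linarith
  have h2 := cpow_bound hN hw1 hw2 hs
  calc _ ≤ (C * (2 * nrm k) ^ d) * (Real.exp (B + 2 * B) * nrm k ^ (-s.re)) :=
        mul_le_mul h1 h2 (norm_nonneg _) (by positivity)
    _ = C * 2 ^ d * Real.exp (B + 2 * B) * nrm k ^ ((d : ℝ) - s.re) := by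
      rw [sub_eq_add_neg, Real.rpow_add hN, Real.rpow_natCast]
      ring

lemma phi_differentiable {n : ℕ} (P : MvPolynomial (Fin n) ℂ) (s : ℂ) (k : Fin n → ℤ)
    (j : Fin n) : DifferentiableOn ℂ (phi P s k j) (ball 0 (nrm k / 4)) := by
  intro z hz
  rw [mem_ball_zero_iff] at hz
  refine DifferentiableAt.differentiableWithinAt ?_
  obtain ⟨hre, -, -⟩ := ww_bounds k j hz
  unfold phi
  refine DifferentiableAt.mul ?_ ?_
  · have : (fun z => MvPolynomial.eval (fun i => (k i : ℂ) + if i = j then z else 0) P) =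
        fun z => ∑ m ∈ P.support, P.coeff m * ∏ i, ((k i : ℂ) + if i = j then z else 0) ^ m i := by
      funext z
      rw [MvPolynomial.eval_eq']
    rw [this]
    refine DifferentiableAt.fun_sum fun m _ => ?_
    refine DifferentiableAt.const_mul ?_ _
    refine DifferentiableAt.fun_finsetProd fun i _ => ?_
    refine DifferentiableAt.pow ?_ _
    by_cases h : i = j
    · simp only [h, if_true]
      fun_prop
    · simp only [h, if_false]
      fun_prop
  · have hww : DifferentiableAt ℂ (ww k j) z := by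
      unfold ww
      fun_prop
    exact hww.cpow_const (Or.inl hre)

lemma add_single_apply {n : ℕ} (k : Fin n → ℤ) (j : Fin n) (t : ℕ) (i : Fin n) :
    (((k + t • (Pi.single j 1 : Fin n → ℤ)) i : ℤ) : ℂ) = (k i : ℂ) + if i = j then (t : ℂ) else 0 := by
  by_cases h : i = j
  · subst h
    simp
  · simp [h]

lemma nrm_add_single {n : ℕ} (k : Fin n → ℤ) (j : Fin n) (t : ℕ) :
    ((nrm (k + t • (Pi.single j 1 : Fin n → ℤ)) : ℝ) : ℂ) ^ 2 = ww k j t := by
  have h1 : nrm (k + t • (Pi.single j 1 : Fin n → ℤ)) ^ 2 =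
      nrm k ^ 2 + 2 * (k j : ℝ) * t + (t : ℝ) ^ 2 := by
    rw [nrm_sq, nrm_sq]
    have : ∀ i, (((k + t • (Pi.single j 1 : Fin n → ℤ)) i : ℤ) : ℝ) ^ 2 =
        (k i : ℝ) ^ 2 + if i = j then 2 * (k j : ℝ) * t + (t : ℝ) ^ 2 else 0 := by
      intro i
      by_cases h : i = j
      · subst h
        simp
        ring
      · simp [h]
    rw [Finset.sum_congr rfl fun i _ => this i, Finset.sum_add_distrib]
    simp
    ring
  unfold ww
  rw [← Complex.ofReal_pow, h1]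
  push_cast
  ring

lemma nrm_shift_pos {n : ℕ} (k : Fin n → ℤ) (j : Fin n) (t : ℕ) (ht : (t : ℝ) < nrm k) :
    k + t • (Pi.single j 1 : Fin n → ℤ) ≠ 0 := by
  intro h
  have h1 : nrm k = t := by
    have hk : k = -(t • (Pi.single j 1 : Fin n → ℤ)) := eq_neg_of_add_eq_zero_left h
    unfold nrm
    rw [hk]
    have : ∀ i, (((-(t • (Pi.single j 1 : Fin n → ℤ))) i : ℤ) : ℝ) ^ 2 =
        if i = j then (t : ℝ) ^ 2 else 0 := by
      intro i
      by_cases h : i = j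
      · subst h
        simp
      · simp [h]
    rw [Finset.sum_congr rfl fun i _ => this i]
    simp
  linarith

lemma term_eq_phi {n : ℕ} (P : MvPolynomial (Fin n) ℂ) (s : ℂ) (k : Fin n → ℤ) (j : Fin n)
    (t : ℕ) (ht : (t : ℝ) < nrm k) :
    term P s (k + t • (Pi.single j 1 : Fin n → ℤ)) = phi P s k j t := by
  have hne := nrm_shift_pos k j t ht
  unfold term phi
  rw [if_neg hne]
  have hpos : 0 < nrm (k + t • (Pi.single j 1 : Fin n → ℤ)) :=
    lt_of_lt_of_le one_pos (one_le_nrm hne)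
  congr 1
  · have : (fun i => (((k + t • (Pi.single j 1 : Fin n → ℤ)) i : ℤ) : ℂ)) =
        fun i => (k i : ℂ) + if i = j then (t : ℂ) else 0 := funext (add_single_apply k j t)
    rw [this]
  · rw [← nrm_add_single]
    set r := nrm (k + t • (Pi.single j 1 : Fin n → ℤ)) with hr
    have hr0 : (r : ℂ) ≠ 0 := by exact_mod_cast hpos.ne'
    rw [Complex.cpow_def_of_ne_zero hr0, Complex.cpow_def_of_ne_zero (pow_ne_zero 2 hr0)]
    congr 1
    rw [← Complex.ofReal_pow, ← Complex.ofReal_log hpos.le, ← Complex.ofReal_log (by positivity),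
      Real.log_pow]
    push_cast
    ring

/-- iterated differences of the terms in direction `j` -/
noncomputable def D {n : ℕ} (P : MvPolynomial (Fin n) ℂ) (j : Fin n) (M : ℕ) (s : ℂ)
    (k : Fin n → ℤ) : ℂ :=
  (fwdDiff (Pi.single j 1 : Fin n → ℤ))^[M] (term P s) k

lemma D_eq_sum {n : ℕ} (P : MvPolynomial (Fin n) ℂ) (j : Fin n) (M : ℕ) (s : ℂ)
    (k : Fin n → ℤ) : D P j M s k = ∑ t ∈ range (M + 1),
      ((-1 : ℤ) ^ (M - t) * M.choose t) • term P s (k + t • (Pi.single j 1 : Fin n → ℤ)) :=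
  fwdDiff_iter_eq_sum_shift _ _ _ _

lemma D_eq_phi {n : ℕ} (P : MvPolynomial (Fin n) ℂ) (j : Fin n) (M : ℕ) (s : ℂ)
    (k : Fin n → ℤ) (hk : (M : ℝ) < nrm k) : D P j M s k = (fwdDiff 1)^[M] (phi P s k j) 0 := by
  rw [D_eq_sum, fwdDiff_iter_eq_sum_shift]
  refine Finset.sum_congr rfl fun t ht => ?_
  have ht' : t ≤ M := by
    have := Finset.mem_range.mp ht
    omega
  rw [term_eq_phi P s k j t (lt_of_le_of_lt (by exact_mod_cast ht') hk)]
  simp

lemma D_far {n d : ℕ} {P : MvPolynomial (Fin n) ℂ} (hP : P.IsHomogeneous d) (B : ℝ) (M : ℕ)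
    (hM : (d : ℝ) + B + 4 ≤ M) :
    ∃ C : ℝ, 0 ≤ C ∧ ∀ (s : ℂ) (k : Fin n → ℤ) (j : Fin n), ‖s‖ ≤ B → 6 * (M : ℝ) < nrm k →
      1 ≤ nrm k → ‖D P j M s k‖ ≤ C * nrm k ^ (-4 : ℝ) := by
  obtain ⟨C, hC0, hC⟩ := phi_bound hP B
  refine ⟨C * (16 * M) ^ M, by positivity, fun s k j hs hk hk1 => ?_⟩
  have hB : 0 ≤ B := (norm_nonneg s).trans hs
  have hN : 0 < nrm k := by linarith
  have hM0 : (0 : ℝ) < M := by
    have : (0 : ℝ) ≤ d := by positivity
    linarith
  set ρ : ℝ := nrm k / (16 * M) with hρ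
  have hρ0 : 0 < ρ := by positivity
  have h := (fwdDiff_bound (R := nrm k / 4) (B := C * nrm k ^ ((d : ℝ) - s.re)) hρ0
    (phi_differentiable P s k j) (fun z hz => hC s k j z hs (mem_ball_zero_iff.mp hz)) M).2 0 (by
      rw [mem_ball_zero_iff, norm_zero]
      have : (M : ℝ) * ρ = nrm k / 16 := by rw [hρ]; field_simp
      nlinarith)
  rw [D_eq_phi P j M s k (by linarith)]
  refine h.trans ?_
  rw [hρ, div_pow, div_div_eq_mul_div]
  have e : C * nrm k ^ ((d : ℝ) - s.re) * (16 * (M : ℝ)) ^ M / nrm k ^ M =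
      C * (16 * M) ^ M * nrm k ^ ((d : ℝ) - s.re - M) := by
    rw [Real.rpow_sub hN ((d : ℝ) - s.re) (M : ℝ), Real.rpow_natCast]
    ring
  rw [e]
  refine mul_le_mul_of_nonneg_left ?_ (by positivity)
  refine Real.rpow_le_rpow_of_exponent_le hk1 ?_
  have := (abs_le.mp ((Complex.abs_re_le_norm s).trans hs)).1
  linarith

lemma term_bound {n : ℕ} (P : MvPolynomial (Fin n) ℂ) {B : ℝ} {s : ℂ} (hs : ‖s‖ ≤ B)
    (k : Fin n → ℤ) :
    ‖term P s k‖ ≤ ‖MvPolynomial.eval (fun i => (k i : ℂ)) P‖ * (1 + nrm k) ^ B := by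
  unfold term
  split_ifs with h
  · rw [norm_zero]
    have := nrm_nonneg k
    positivity
  · rw [norm_mul]
    refine mul_le_mul_of_nonneg_left ?_ (norm_nonneg _)
    have h1 := one_le_nrm h
    rw [Complex.norm_cpow_eq_rpow_re_of_pos (by linarith)]
    have h2 : (-s).re ≤ B := by
      have := (abs_le.mp ((Complex.abs_re_le_norm s).trans hs)).1
      simp only [Complex.neg_re]
      linarith
    calc nrm k ^ (-s).re ≤ nrm k ^ B := Real.rpow_le_rpow_of_exponent_le h1 h2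
      _ ≤ (1 + nrm k) ^ B := Real.rpow_le_rpow (by linarith) (by linarith)
        ((norm_nonneg s).trans hs)

lemma term_differentiable {n : ℕ} (P : MvPolynomial (Fin n) ℂ) (k : Fin n → ℤ) :
    Differentiable ℂ fun s => term P s k := by
  unfold term
  by_cases h : k = 0
  · simp only [h, if_true]
    exact differentiable_const _
  · simp only [h, if_false]
    have h1 : (nrm k : ℂ) ≠ 0 := by
      have := one_le_nrm h
      exact_mod_cast (by linarith : nrm k ≠ 0)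
    refine Differentiable.const_mul ?_ _
    intro s
    refine DifferentiableAt.const_cpow (by fun_prop) (Or.inl h1)

lemma D_differentiable {n : ℕ} (P : MvPolynomial (Fin n) ℂ) (j : Fin n) (M : ℕ)
    (k : Fin n → ℤ) : Differentiable ℂ fun s => D P j M s k := by
  simp only [D_eq_sum]
  refine Differentiable.fun_sum fun t _ => ?_
  simp only [zsmul_eq_mul]
  exact (term_differentiable P _).const_mul _

/-- a summable majorant of the iterated differences on a disc -/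
lemma D_majorant {d : ℕ} {P : MvPolynomial (Fin 2) ℂ} (hP : P.IsHomogeneous d) {B : ℝ} {M : ℕ}
    (hM : (d : ℝ) + B + 4 ≤ M) :
    ∃ u : (Fin 2 → ℤ) → ℝ, Summable u ∧ (∀ k, 0 ≤ u k) ∧
      ∀ (s : ℂ) (k : Fin 2 → ℤ) (j : Fin 2), ‖s‖ ≤ B → ‖D P j M s k‖ ≤ u k := by
  obtain ⟨C, hC0, hC⟩ := D_far (n := 2) hP B M hM
  set near : (Fin 2 → ℤ) → ℝ := fun k => ∑ j : Fin 2, ∑ t ∈ range (M + 1), (M.choose t : ℝ) *
    (‖MvPolynomial.eval (fun i => (((k + t • (Pi.single j 1 : Fin 2 → ℤ)) i : ℤ) : ℂ)) P‖ *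
      (1 + nrm (k + t • (Pi.single j 1 : Fin 2 → ℤ))) ^ B) with hnear
  have hnear0 : ∀ k, 0 ≤ near k := fun k =>
    Finset.sum_nonneg fun j _ => Finset.sum_nonneg fun t _ => by
      have := nrm_nonneg (k + t • (Pi.single j 1 : Fin 2 → ℤ))
      positivity
  refine ⟨fun k => if nrm k < 6 * M + 1 then near k else C * nrm k ^ (-4 : ℝ), ?_, ?_, ?_⟩
  · have h4 : Summable fun k : Fin 2 → ℤ => C * ‖k‖ ^ (-4 : ℝ) :=
      (EisensteinSeries.summable_one_div_norm_rpow (k := 4) (by norm_num)).mul_left C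
    refine Summable.of_norm_bounded_eventually h4 ?_
    have hfin := nrm_finite (n := 2) (6 * M + 1)
    have : ∀ᶠ k in Filter.cofinite, k ∉ {k : Fin 2 → ℤ | nrm k < 6 * M + 1} :=
      hfin.compl_mem_cofinite
    filter_upwards [this, (Set.finite_singleton (0 : Fin 2 → ℤ)).compl_mem_cofinite] with k hk hk0
    have hk' : ¬ nrm k < 6 * M + 1 := hk
    have hk0' : k ≠ 0 := hk0
    rw [if_neg hk', Real.norm_eq_abs, abs_of_nonneg (by
      have := nrm_nonneg k
      positivity)]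
    refine mul_le_mul_of_nonneg_left ?_ hC0
    exact Real.rpow_le_rpow_of_nonpos (norm_pos_iff.mpr hk0') (norm_le_nrm k) (by norm_num)
  · intro k
    show 0 ≤ if nrm k < 6 * M + 1 then near k else C * nrm k ^ (-4 : ℝ)
    split_ifs
    · exact hnear0 k
    · have := nrm_nonneg k
      positivity
  · intro s k j hs
    show _ ≤ if nrm k < 6 * M + 1 then near k else C * nrm k ^ (-4 : ℝ)
    split_ifs with h
    · rw [D_eq_sum]
      refine (norm_sum_le _ _).trans ?_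
      have h1 : ∑ t ∈ range (M + 1), ‖((-1 : ℤ) ^ (M - t) * M.choose t) •
          term P s (k + t • (Pi.single j 1 : Fin 2 → ℤ))‖ ≤ ∑ t ∈ range (M + 1),
          (M.choose t : ℝ) * (‖MvPolynomial.eval
            (fun i => (((k + t • (Pi.single j 1 : Fin 2 → ℤ)) i : ℤ) : ℂ)) P‖ *
            (1 + nrm (k + t • (Pi.single j 1 : Fin 2 → ℤ))) ^ B) := by
        refine Finset.sum_le_sum fun t _ => ?_
        rw [zsmul_eq_mul, norm_mul]
        have h2 : ‖(((-1 : ℤ) ^ (M - t) * M.choose t : ℤ) : ℂ)‖ = (M.choose t : ℝ) := by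
          push_cast
          rw [norm_mul, norm_pow, norm_neg, norm_one, one_pow, one_mul, Complex.norm_natCast]
        rw [h2]
        exact mul_le_mul_of_nonneg_left (term_bound P hs _) (by positivity)
      refine h1.trans ?_
      exact Finset.single_le_sum (f := fun j : Fin 2 => ∑ t ∈ range (M + 1), (M.choose t : ℝ) *
        (‖MvPolynomial.eval (fun i => (((k + t • (Pi.single j 1 : Fin 2 → ℤ)) i : ℤ) : ℂ)) P‖ *
          (1 + nrm (k + t • (Pi.single j 1 : Fin 2 → ℤ))) ^ B))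
        (fun j _ => Finset.sum_nonneg fun t _ => by
          have := nrm_nonneg (k + t • (Pi.single j 1 : Fin 2 → ℤ))
          positivity) (Finset.mem_univ j)
    · push Not at h
      have hM0 : (0 : ℝ) ≤ M := by positivity
      exact hC s k j hs (by linarith) (by linarith)

end bounds

section parts

lemma chi_norm {n : ℕ} (a : Fin n → ℝ) (k : Fin n → ℤ) : ‖chi a k‖ = 1 := by
  unfold chi
  rw [Complex.norm_exp]
  simp

lemma chi_ne {n : ℕ} (a : Fin n → ℝ) (k : Fin n → ℤ) : chi a k ≠ 0 := Complex.exp_ne_zero _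

lemma chi_add {n : ℕ} (a : Fin n → ℝ) (k k' : Fin n → ℤ) : chi a (k + k') = chi a k * chi a k' := by
  unfold chi
  rw [← Complex.exp_add]
  congr 1
  rw [← mul_add, ← Complex.ofReal_add]
  congr 2
  rw [← Finset.sum_add_distrib]
  refine Finset.sum_congr rfl fun i _ => ?_
  rw [Pi.add_apply]
  push_cast
  ring

lemma summable_mul_chi {n : ℕ} {F : (Fin n → ℤ) → ℂ} (hF : Summable fun k => ‖F k‖)
    (a : Fin n → ℝ) : Summable fun k => F k * chi a k := by
  refine Summable.of_norm ?_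
  simpa only [norm_mul, chi_norm, mul_one] using hF

lemma summable_fwdDiff {n : ℕ} {F : (Fin n → ℤ) → ℂ} (hF : Summable fun k => ‖F k‖)
    (e : Fin n → ℤ) : Summable fun k => ‖fwdDiff e F k‖ := by
  have h1 : Summable fun k => ‖F (k + e)‖ := (Equiv.addRight e).summable_iff.mpr hF
  refine Summable.of_nonneg_of_le (fun _ => norm_nonneg _) (fun k => ?_) (h1.add hF)
  exact norm_sub_le _ _

lemma tsum_fwdDiff {n : ℕ} {F : (Fin n → ℤ) → ℂ} (hF : Summable fun k => ‖F k‖)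
    (a : Fin n → ℝ) (e : Fin n → ℤ) :
    ∑' k, fwdDiff e F k * chi a k = ((chi a e)⁻¹ - 1) * ∑' k, F k * chi a k := by
  have h0 := summable_mul_chi hF a
  have h1 : Summable fun k => F (k + e) * chi a k := by
    refine summable_mul_chi (F := fun k => F (k + e)) ?_ a
    exact (Equiv.addRight e).summable_iff.mpr hF
  have e1 : ∑' k, F k * chi a k = ∑' k, F (k + e) * chi a (k + e) :=
    ((Equiv.addRight e).tsum_eq fun k => F k * chi a k).symm
  have e2 : ∑' k, F (k + e) * chi a (k + e) = chi a e * ∑' k, F (k + e) * chi a k := by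
    rw [← tsum_mul_left]
    refine tsum_congr fun k => ?_
    rw [chi_add]
    ring
  have e3 : ∑' k, F (k + e) * chi a k = (chi a e)⁻¹ * ∑' k, F k * chi a k := by
    rw [e1, e2, ← mul_assoc, inv_mul_cancel₀ (chi_ne a e), one_mul]
  have e4 : ∑' k, fwdDiff e F k * chi a k =
      ∑' k, F (k + e) * chi a k - ∑' k, F k * chi a k := by
    rw [← h1.tsum_sub h0]
    refine tsum_congr fun k => ?_
    rw [fwdDiff]
    ring
  rw [e4, e3]
  ring

lemma tsum_fwdDiff_iter {n : ℕ} {F : (Fin n → ℤ) → ℂ} (hF : Summable fun k => ‖F k‖)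
    (a : Fin n → ℝ) (e : Fin n → ℤ) (M : ℕ) :
    (Summable fun k => ‖(fwdDiff e)^[M] F k‖) ∧
    ∑' k, (fwdDiff e)^[M] F k * chi a k = ((chi a e)⁻¹ - 1) ^ M * ∑' k, F k * chi a k := by
  induction M with
  | zero => exact ⟨hF, by simp⟩
  | succ M ih =>
    obtain ⟨ih1, ih2⟩ := ih
    simp only [Function.iterate_succ_apply']
    refine ⟨summable_fwdDiff ih1 e, ?_⟩
    rw [tsum_fwdDiff ih1, ih2, pow_succ]
    ring

lemma summable_term {d : ℕ} {P : MvPolynomial (Fin 2) ℂ} (hP : P.IsHomogeneous d) {s : ℂ}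
    (hs : (2 + d : ℝ) < s.re) : Summable fun k => ‖term P s k‖ := by
  obtain ⟨C, hC0, hC⟩ := eval_bound hP
  have h1 : Summable fun k : Fin 2 → ℤ => C * ‖k‖ ^ (-(s.re - d)) :=
    (EisensteinSeries.summable_one_div_norm_rpow (k := s.re - d) (by linarith)).mul_left C
  refine Summable.of_nonneg_of_le (fun _ => norm_nonneg _) (fun k => ?_) h1
  unfold term
  split_ifs with h
  · rw [norm_zero]
    positivity
  · have hk := one_le_nrm h
    have hk' : 0 < ‖k‖ := norm_pos_iff.mpr h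
    rw [norm_mul, Complex.norm_cpow_eq_rpow_re_of_pos (by linarith)]
    have h2 : ‖MvPolynomial.eval (fun i => (k i : ℂ)) P‖ ≤ C * ‖k‖ ^ d := by
      refine hC _ _ (norm_nonneg _) fun i => ?_
      rw [Complex.norm_intCast]
      have := norm_le_pi_norm k i
      rwa [Int.norm_eq_abs] at this
    have h3 : nrm k ^ (-s).re ≤ ‖k‖ ^ (-s.re) := by
      rw [Complex.neg_re]
      refine Real.rpow_le_rpow_of_nonpos hk' (norm_le_nrm k) ?_
      have : (0 : ℝ) ≤ d := by positivity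
      linarith
    calc _ ≤ (C * ‖k‖ ^ d) * ‖k‖ ^ (-s.re) :=
          mul_le_mul h2 h3 (Real.rpow_nonneg (by linarith) _) (by positivity)
      _ = C * ‖k‖ ^ (-(s.re - d)) := by
        rw [neg_sub, sub_eq_add_neg, Real.rpow_add hk', Real.rpow_natCast]
        ring

end parts

section arithmetic

lemma sqrt_two_gap (m : ℤ) (hm : m ≠ 0) : 1 / |(m : ℝ)| ≤ 2 * |Real.sin (π * (√2 * m))| := by
  set y : ℝ := √2 * m with hy
  set p : ℤ := round y with hp
  have hpi := Real.pi_pos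
  have hclose : |y - p| ≤ 1 / 2 := abs_sub_round y
  have hm1 : (1 : ℝ) ≤ |(m : ℝ)| := by
    have : (1 : ℤ) ≤ |m| := Int.one_le_abs hm
    exact_mod_cast this
  have hs : |Real.sin (π * y)| = |Real.sin (π * (y - p))| := by
    have : π * (y - p) = π * y - p * π := by ring
    rw [this, Real.sin_sub_int_mul_pi, abs_mul, abs_zpow, abs_neg, abs_one, one_zpow, one_mul]
  have h1 : 2 * |y - p| ≤ |Real.sin (π * (y - p))| := by
    have hx : |π * (y - p)| ≤ π / 2 := by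
      rw [abs_mul, abs_of_pos hpi]
      nlinarith
    have := Real.mul_abs_le_abs_sin hx
    rw [abs_mul, abs_of_pos hpi] at this
    calc 2 * |y - p| = 2 / π * (π * |y - p|) := by field_simp
      _ ≤ _ := this
  have hsq : y ^ 2 = 2 * (m : ℝ) ^ 2 := by
    rw [hy, mul_pow, Real.sq_sqrt (by norm_num)]
  have hne : (2 * m ^ 2 - p ^ 2 : ℤ) ≠ 0 := by
    intro h
    have h2 : (p : ℝ) ^ 2 = 2 * (m : ℝ) ^ 2 := by
      have : (2 * (m : ℝ) ^ 2 - (p : ℝ) ^ 2) = 0 := by exact_mod_cast h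
      linarith
    have hm0 : (m : ℝ) ≠ 0 := by exact_mod_cast hm
    have h3 : (|(p : ℝ)| / |(m : ℝ)|) ^ 2 = 2 := by
      rw [div_pow, sq_abs, sq_abs, h2]
      field_simp
    have h4 : √2 = |(p : ℝ)| / |(m : ℝ)| := by
      rw [← h3, Real.sqrt_sq (by positivity)]
    refine irrational_sqrt_two ⟨((|p| : ℤ) : ℚ) / ((|m| : ℤ) : ℚ), ?_⟩
    rw [h4]
    push_cast
    rfl
  have h5 : (1 : ℝ) ≤ |y - p| * |y + p| := by
    rw [← abs_mul]
    have e : (y - p) * (y + p) = ((2 * m ^ 2 - p ^ 2 : ℤ) : ℝ) := by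
      push_cast
      have : (y - p) * (y + p) = y ^ 2 - p ^ 2 := by ring
      rw [this, hsq]
    rw [e]
    have : (1 : ℤ) ≤ |2 * m ^ 2 - p ^ 2| := Int.one_le_abs hne
    exact_mod_cast this
  have h6 : |y + p| ≤ 4 * |(m : ℝ)| := by
    have hs2 : √2 ≤ 3 / 2 := by
      rw [Real.sqrt_le_left (by norm_num)]
      norm_num
    have h7 : |y| ≤ 3 / 2 * |(m : ℝ)| := by
      rw [hy, abs_mul, abs_of_pos (by positivity : (0 : ℝ) < √2)]
      exact mul_le_mul_of_nonneg_right hs2 (abs_nonneg _)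
    calc |y + p| = |2 * y - (y - p)| := by ring_nf
      _ ≤ |2 * y| + |y - p| := abs_sub _ _
      _ = 2 * |y| + |y - p| := by rw [abs_mul, abs_two]
      _ ≤ 4 * |(m : ℝ)| := by linarith
  have h8 : 1 ≤ |y - p| * (4 * |(m : ℝ)|) :=
    h5.trans (mul_le_mul_of_nonneg_left h6 (abs_nonneg _))
  rw [hs, div_le_iff₀ (by linarith)]
  nlinarith

lemma chi_single {a : Fin 2 → ℝ} {j : Fin 2} :
    chi a (Pi.single j 1) = Complex.exp (Complex.I * ((2 * π * a j : ℝ) : ℂ)) := by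
  unfold chi
  congr 1
  have : ∑ i, (((Pi.single j 1 : Fin 2 → ℤ) i : ℤ) : ℝ) * a i = a j := by
    rw [Finset.sum_eq_single j]
    · simp
    · intro i _ hij
      simp [hij]
    · simp
  rw [this]
  push_cast
  ring

lemma chi_gap {a : Fin 2 → ℝ} {j : Fin 2} {m : ℤ} (hm : m ≠ 0) (ha : a j = √2 * m) :
    ‖((chi a (Pi.single j 1))⁻¹ - 1)⁻¹‖ ≤ |(m : ℝ)| := by
  have h := sqrt_two_gap m hm
  have hm1 : (1 : ℝ) ≤ |(m : ℝ)| := by
    have : (1 : ℤ) ≤ |m| := Int.one_le_abs hm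
    exact_mod_cast this
  have e : ‖(chi a (Pi.single j 1))⁻¹ - 1‖ = 2 * |Real.sin (π * (√2 * m))| := by
    have h1 : (chi a (Pi.single j 1))⁻¹ - 1 =
        -((chi a (Pi.single j 1))⁻¹ * (chi a (Pi.single j 1) - 1)) := by
      rw [mul_sub, inv_mul_cancel₀ (chi_ne _ _)]
      ring
    rw [h1, norm_neg, norm_mul, norm_inv, chi_norm, inv_one, one_mul, chi_single,
      Complex.norm_exp_I_mul_ofReal_sub_one, Real.norm_eq_abs, abs_mul, abs_two, ha]
    congr 3
    ring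
  rw [norm_inv, e]
  rw [inv_le_comm₀ (by
    refine lt_of_lt_of_le ?_ h
    positivity) (by linarith), ← one_div]
  exact h

lemma rapid_bound {n q : ℕ} {b : (Fin q → Fin n → ℤ) → ℂ} (hb : IsRapid b) (K : ℕ) :
    ∃ C : ℝ, 0 ≤ C ∧ ∀ l, (∏ i, ∏ j, max 1 |(l i j : ℝ)|) ^ K * ‖b l‖ ≤ C := by
  classical
  choose C hC using fun J : Fin q → Fin n → Bool =>
    hb fun i j => if J i j then K else 0
  refine ⟨∑ J, |C J|, Finset.sum_nonneg fun _ _ => abs_nonneg _, fun l => ?_⟩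
  have h := hC (fun i j => decide (l i j ≠ 0)) l
  have e : (∏ i, ∏ j, max 1 |(l i j : ℝ)|) ^ K = ∏ i, ∏ j, |(l i j : ℝ)| ^
      (if decide (l i j ≠ 0) = true then K else 0) := by
    rw [← Finset.prod_pow]
    refine Finset.prod_congr rfl fun i _ => ?_
    rw [← Finset.prod_pow]
    refine Finset.prod_congr rfl fun j _ => ?_
    by_cases hl : l i j = 0
    · simp [hl]
    · have : (1 : ℤ) ≤ |l i j| := Int.one_le_abs hl
      have h1 : (1 : ℝ) ≤ |(l i j : ℝ)| := by exact_mod_cast this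
      rw [max_eq_right h1]
      simp [hl]
  rw [e]
  refine h.trans ((le_abs_self _).trans ?_)
  exact Finset.single_le_sum (f := fun J => |C J|) (fun _ _ => abs_nonneg _) (Finset.mem_univ _)

lemma summable_prod_fin {α : Type*} {g : α → ℝ} (hg : Summable g) (hg0 : ∀ x, 0 ≤ g x) (m : ℕ) :
    Summable fun x : Fin m → α => ∏ i, g (x i) := by
  induction m with
  | zero =>
    exact (hasSum_fintype _).summable
  | succ m ih =>
    rw [← (Fin.consEquiv fun _ : Fin (m + 1) => α).summable_iff]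
    have h := hg.mul_of_nonneg ih hg0 fun x => Finset.prod_nonneg fun i _ => hg0 _
    refine h.congr fun x => ?_
    simp [Fin.prod_univ_succ, Fin.consEquiv]

lemma summable_max : Summable fun x : ℤ => (max 1 |(x : ℝ)|) ^ (-2 : ℝ) := by
  have h := Real.summable_abs_int_rpow (b := 2) (by norm_num)
  refine Summable.of_norm_bounded_eventually h ?_
  filter_upwards [(Set.finite_singleton (0 : ℤ)).compl_mem_cofinite] with x hx
  have hx' : x ≠ 0 := hx
  have : (1 : ℤ) ≤ |x| := Int.one_le_abs hx'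
  have h1 : (1 : ℝ) ≤ |(x : ℝ)| := by exact_mod_cast this
  rw [max_eq_right h1, Real.norm_eq_abs, abs_of_nonneg (by positivity)]

lemma one_le_prod_real {ι : Type*} (s : Finset ι) (g : ι → ℝ) (h : ∀ i ∈ s, 1 ≤ g i) :
    1 ≤ ∏ i ∈ s, g i := by
  have := Finset.prod_le_prod (s := s) (f := fun _ => (1 : ℝ)) (g := g)
    (fun _ _ => zero_le_one) h
  simpa using this

/-- products of the entries dominate the sums -/
lemma comb_bound {q : ℕ} (ε : Fin q → ℤ) (hε : ∀ i, ε i = -1 ∨ ε i = 0 ∨ ε i = 1)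
    (l : Fin q → Fin 2 → ℤ) (j : Fin 2) :
    |(((∑ i, ε i • l i) j : ℤ) : ℝ)| ≤ q * ∏ i, ∏ j, max 1 |(l i j : ℝ)| := by
  have h1 : |(((∑ i, ε i • l i) j : ℤ) : ℝ)| ≤ ∑ i, |(l i j : ℝ)| := by
    rw [Finset.sum_apply]
    push_cast
    refine (Finset.abs_sum_le_sum_abs _ _).trans (Finset.sum_le_sum fun i _ => ?_)
    rw [Pi.smul_apply, smul_eq_mul]
    push_cast
    rw [abs_mul]
    have : |(ε i : ℝ)| ≤ 1 := by
      rcases hε i with h | h | h <;> rw [h] <;> norm_num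
    exact mul_le_of_le_one_left (abs_nonneg _) this
  refine h1.trans ?_
  have h2 : ∀ i, |(l i j : ℝ)| ≤ ∏ i, ∏ j, max 1 |(l i j : ℝ)| := by
    intro i
    have a1 : ∀ i j, 1 ≤ max 1 |(l i j : ℝ)| := fun i j => le_max_left _ _
    have a2 : ∀ i, 1 ≤ ∏ j, max 1 |(l i j : ℝ)| := fun i =>
      one_le_prod_real _ _ fun j _ => a1 i j
    calc |(l i j : ℝ)| ≤ max 1 |(l i j : ℝ)| := le_max_right _ _
      _ ≤ ∏ j, max 1 |(l i j : ℝ)| := by
        rw [← Finset.mul_prod_erase Finset.univ _ (Finset.mem_univ j)]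
        refine le_mul_of_one_le_right (by linarith [a1 i j]) ?_
        exact one_le_prod_real _ _ fun j' _ => a1 i j'
      _ ≤ ∏ i, ∏ j, max 1 |(l i j : ℝ)| := by
        rw [← Finset.mul_prod_erase Finset.univ (fun i => ∏ j, max 1 |(l i j : ℝ)|)
          (Finset.mem_univ i)]
        refine le_mul_of_one_le_right (by linarith [a2 i]) ?_
        exact one_le_prod_real _ _ fun i' _ => a2 i'
  calc ∑ i, |(l i j : ℝ)| ≤ ∑ _i : Fin q, ∏ i, ∏ j, max 1 |(l i j : ℝ)| :=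
        Finset.sum_le_sum fun i _ => h2 i
    _ = q * ∏ i, ∏ j, max 1 |(l i j : ℝ)| := by simp

end arithmetic

section main

variable {d q : ℕ} (P : MvPolynomial (Fin 2) ℂ) (b : (Fin q → Fin 2 → ℤ) → ℂ) (ε : Fin q → ℤ)

/-- `∑ ε_i l_i` -/
def ms (l : Fin q → Fin 2 → ℤ) : Fin 2 → ℤ := ∑ i, ε i • l i

/-- `√2 ∑ ε_i l_i` -/
noncomputable def av (l : Fin q → Fin 2 → ℤ) : Fin 2 → ℝ := fun j => √2 * (ms ε l j : ℝ)

/-- a coordinate in which `∑ ε_i l_i` does not vanish -/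
def dir (l : Fin q → Fin 2 → ℤ) : Fin 2 := if ms ε l 0 ≠ 0 then 0 else 1

lemma dir_spec {l : Fin q → Fin 2 → ℤ} (h : ms ε l ≠ 0) : ms ε l (dir ε l) ≠ 0 := by
  unfold dir
  split_ifs with h0
  · exact h0
  · push Not at h0
    intro h1
    apply h
    funext j
    fin_cases j
    · exact h0
    · exact h1

/-- the continuation of `f_a` for `a = √2 ∑ ε_i l_i` -/
noncomputable def GG (M : ℕ) (l : Fin q → Fin 2 → ℤ) (s : ℂ) : ℂ :=
  (((chi (av ε l) (Pi.single (dir ε l) 1))⁻¹ - 1)⁻¹) ^ M *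
    ∑' k, D P (dir ε l) M s k * chi (av ε l) k

/-- the continuation of `g₀` -/
noncomputable def HH (M : ℕ) (s : ℂ) : ℂ :=
  ∑' l : Fin q → Fin 2 → ℤ, if ms ε l = 0 then 0 else b l * GG P ε M l s

variable {P}

lemma gap_ne {l : Fin q → Fin 2 → ℤ} (h : ms ε l ≠ 0) :
    (chi (av ε l) (Pi.single (dir ε l) 1))⁻¹ - 1 ≠ 0 := by
  intro h0
  have h1 := sqrt_two_gap _ (dir_spec ε h)
  have h2 : ‖(chi (av ε l) (Pi.single (dir ε l) 1))⁻¹ - 1‖ =
      2 * |Real.sin (π * (√2 * (ms ε l (dir ε l) : ℝ)))| := by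
    have h1 : (chi (av ε l) (Pi.single (dir ε l) 1))⁻¹ - 1 =
        -((chi (av ε l) (Pi.single (dir ε l) 1))⁻¹ *
          (chi (av ε l) (Pi.single (dir ε l) 1) - 1)) := by
      rw [mul_sub, inv_mul_cancel₀ (chi_ne _ _)]
      ring
    rw [h1, norm_neg, norm_mul, norm_inv, chi_norm, inv_one, one_mul, chi_single,
      Complex.norm_exp_I_mul_ofReal_sub_one, Real.norm_eq_abs, abs_mul, abs_two]
    congr 3
    unfold av
    ring
  rw [h0, norm_zero] at h2
  rw [← h2] at h1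
  have h3 : (ms ε l (dir ε l) : ℝ) ≠ 0 := by exact_mod_cast dir_spec ε h
  have h4 : 0 < 1 / |(ms ε l (dir ε l) : ℝ)| := by positivity
  linarith

lemma GG_eq (hP : P.IsHomogeneous d) (M : ℕ) {l : Fin q → Fin 2 → ℤ} (h : ms ε l ≠ 0) {s : ℂ}
    (hs : (2 + d : ℝ) < s.re) : GG P ε M l s = f P (av ε l) s := by
  unfold GG f D
  rw [(tsum_fwdDiff_iter (summable_term hP hs) (av ε l) (Pi.single (dir ε l) 1) M).2,
    ← mul_assoc, ← mul_pow, inv_mul_cancel₀ (gap_ne ε h), one_pow, one_mul]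

lemma HH_eq (hP : P.IsHomogeneous d) (M : ℕ) {s : ℂ} (hs : (2 + d : ℝ) < s.re) :
    HH P b ε M s = g₀ (√2 • (1 : Matrix (Fin 2) (Fin 2) ℝ)) P b ε s := by
  unfold HH g₀
  refine tsum_congr fun l => ?_
  by_cases h : ms ε l = 0
  · have h' : ∑ i, ε i • l i = 0 := h
    rw [if_pos h, if_pos h']
  · have h' : ¬ ∑ i, ε i • l i = 0 := h
    rw [if_neg h, if_neg h', GG_eq ε hP M h hs]
    congr 2
    funext j
    rw [Matrix.smul_mulVec, Matrix.one_mulVec]
    rfl

lemma HH_differentiable (hP : P.IsHomogeneous d) (hb : IsRapid b)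
    (hε : ∀ i, ε i = -1 ∨ ε i = 0 ∨ ε i = 1) {B : ℝ} {M : ℕ} (hM : (d : ℝ) + B + 4 ≤ M) :
    DifferentiableOn ℂ (HH P b ε M) (ball 0 B) := by
  obtain ⟨u, hu, hu0, hub⟩ := D_majorant hP hM
  obtain ⟨C, hC0, hC⟩ := rapid_bound hb (M + 2)
  set U := ∑' k, u k with hU
  have hU0 : 0 ≤ U := tsum_nonneg hu0
  have hg : Summable fun y : Fin 2 → ℤ => ∏ j, (max 1 |(y j : ℝ)|) ^ (-2 : ℝ) :=
    summable_prod_fin summable_max (fun x => by positivity) 2
  have hgg : Summable fun l : Fin q → Fin 2 → ℤ => ∏ i, ∏ j, (max 1 |(l i j : ℝ)|) ^ (-2 : ℝ) :=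
    summable_prod_fin hg (fun y => Finset.prod_nonneg fun j _ => by positivity) q
  refine Complex.differentiableOn_tsum_of_summable_norm
    (u := fun l => (q : ℝ) ^ M * U * C * ∏ i, ∏ j, (max 1 |(l i j : ℝ)|) ^ (-2 : ℝ))
    (hgg.mul_left _) ?_ isOpen_ball ?_
  · intro l
    by_cases h : ms ε l = 0
    · simp only [h, if_true]
      exact differentiableOn_const _
    · simp only [h, if_false]
      refine DifferentiableOn.const_mul ?_ _
      unfold GG
      refine DifferentiableOn.const_mul ?_ _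
      refine Complex.differentiableOn_tsum_of_summable_norm hu (fun k => ?_) isOpen_ball fun k s hs => ?_
      · exact ((D_differentiable P _ M k).mul_const _).differentiableOn
      · rw [norm_mul, chi_norm, mul_one]
        exact hub s k _ (mem_ball_zero_iff.mp hs).le
  · intro l s hs
    have hs' : ‖s‖ ≤ B := (mem_ball_zero_iff.mp hs).le
    set W0 := ∏ i, ∏ j, max 1 |(l i j : ℝ)| with hW
    have hW1 : 1 ≤ W0 := one_le_prod_real _ _ fun i _ => one_le_prod_real _ _ fun j _ =>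
      le_max_left _ _
    have hWe : ∏ i, ∏ j, (max 1 |(l i j : ℝ)|) ^ (-2 : ℝ) = (W0 ^ 2)⁻¹ := by
      rw [hW, ← Finset.prod_pow, ← Finset.prod_inv_distrib]
      refine Finset.prod_congr rfl fun i _ => ?_
      rw [← Finset.prod_pow, ← Finset.prod_inv_distrib]
      refine Finset.prod_congr rfl fun j _ => ?_
      rw [Real.rpow_neg (by positivity)]
      norm_num
    rw [hWe]
    by_cases h : ms ε l = 0
    · rw [if_pos h, norm_zero]
      positivity
    · rw [if_neg h, norm_mul]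
      unfold GG
      rw [norm_mul, norm_pow]
      have h1 : ‖((chi (av ε l) (Pi.single (dir ε l) 1))⁻¹ - 1)⁻¹‖ ≤ q * W0 :=
        (chi_gap (dir_spec ε h) rfl).trans (comb_bound ε hε l _)
      have h2 : ‖∑' k, D P (dir ε l) M s k * chi (av ε l) k‖ ≤ U := by
        refine tsum_of_norm_bounded hu.hasSum fun k => ?_
        rw [norm_mul, chi_norm, mul_one]
        exact hub s k _ hs'
      have h3 := hC l
      have h4 : W0 ^ M * ‖b l‖ ≤ C * (W0 ^ 2)⁻¹ := by
        rw [← div_eq_mul_inv, le_div_iff₀ (by positivity)]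
        calc W0 ^ M * ‖b l‖ * W0 ^ 2 = W0 ^ (M + 2) * ‖b l‖ := by ring
          _ ≤ C := h3
      calc ‖b l‖ * (‖((chi (av ε l) (Pi.single (dir ε l) 1))⁻¹ - 1)⁻¹‖ ^ M *
            ‖∑' k, D P (dir ε l) M s k * chi (av ε l) k‖)
          ≤ ‖b l‖ * ((q * W0) ^ M * U) := by gcongr
        _ = (q : ℝ) ^ M * U * (W0 ^ M * ‖b l‖) := by rw [mul_pow]; ring
        _ ≤ (q : ℝ) ^ M * U * (C * (W0 ^ 2)⁻¹) :=
          mul_le_mul_of_nonneg_left h4 (by positivity)
        _ = _ := by ring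

lemma HH_agree (hP : P.IsHomogeneous d) (hb : IsRapid b)
    (hε : ∀ i, ε i = -1 ∨ ε i = 0 ∨ ε i = 1) {B : ℝ} {M M' : ℕ} (hB : (d : ℝ) + 4 ≤ B)
    (hM : (d : ℝ) + B + 4 ≤ M) (hM' : (d : ℝ) + B + 4 ≤ M') {s : ℂ} (hs : s ∈ ball (0 : ℂ) B) :
    HH P b ε M s = HH P b ε M' s := by
  have h1 := (HH_differentiable b ε hP hb hε hM).analyticOnNhd isOpen_ball
  have h2 := (HH_differentiable b ε hP hb hε hM').analyticOnNhd isOpen_ball
  have h0 : (((d : ℝ) + 3 : ℝ) : ℂ) ∈ ball (0 : ℂ) B := by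
    rw [mem_ball_zero_iff, Complex.norm_real, Real.norm_eq_abs, abs_of_pos (by positivity)]
    linarith
  refine h1.eqOn_of_preconnected_of_eventuallyEq h2 (convex_ball _ _).isPreconnected h0 ?_ hs
  have hopen : IsOpen {z : ℂ | (2 + d : ℝ) < z.re} := isOpen_lt continuous_const Complex.continuous_re
  filter_upwards [hopen.mem_nhds (by
    show (2 + d : ℝ) < (((d : ℝ) + 3 : ℝ) : ℂ).re
    rw [Complex.ofReal_re]
    linarith)] with z hz
  rw [HH_eq b ε hP M hz, HH_eq b ε hP M' hz]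

/-- `√2 I₂` has property (H). -/
lemma propertyH_sqrt_two : PropertyH (√2 • (1 : Matrix (Fin 2) (Fin 2) ℝ)) := by
  intro q _ d P hP b hb ε hε
  set BN : ℂ → ℕ := fun s => ⌈‖s‖⌉₊ + d + 5 with hBN
  have hBN1 : ∀ s, ‖s‖ < BN s := by
    intro s
    have := Nat.le_ceil ‖s‖
    simp only [hBN]
    push_cast
    have : (0 : ℝ) ≤ d := by positivity
    linarith
  have hcast : ∀ n : ℕ, (d : ℝ) + n + 4 ≤ ((d + n + 4 : ℕ) : ℝ) := fun n => by push_cast; linarith
  refine ⟨fun s => HH P b ε (d + BN s + 4) s, fun s => ?_, fun s hs => ?_⟩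
  · have hd := (HH_differentiable b ε hP hb hε (B := (BN s + 2 : ℕ)) (hcast (BN s + 2)))
    have hmem : s ∈ ball (0 : ℂ) ((BN s + 2 : ℕ) : ℝ) := by
      rw [mem_ball_zero_iff]
      push_cast
      linarith [hBN1 s]
    have hda := hd.differentiableAt (isOpen_ball.mem_nhds hmem)
    refine hda.congr_of_eventuallyEq ?_
    filter_upwards [ball_mem_nhds s one_pos] with z hz
    have hz1 : ‖z‖ ≤ ‖s‖ + 1 := by
      rw [mem_ball, dist_eq_norm] at hz
      calc ‖z‖ = ‖(z - s) + s‖ := by ring_nf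
        _ ≤ ‖z - s‖ + ‖s‖ := norm_add_le _ _
        _ ≤ ‖s‖ + 1 := by linarith
    have hle : BN z ≤ BN s + 2 := by
      simp only [hBN]
      have h1 : ⌈‖z‖⌉₊ ≤ ⌈‖s‖⌉₊ + 1 := by
        refine Nat.ceil_le.mpr ?_
        push_cast
        linarith [Nat.le_ceil ‖s‖]
      omega
    have hle' : ((BN z : ℕ) : ℝ) ≤ ((BN s + 2 : ℕ) : ℝ) := by exact_mod_cast hle
    refine HH_agree b ε hP hb hε (B := BN z) ?_ (hcast _) ?_ ?_
    · simp only [hBN]
      push_cast
      have : (0 : ℝ) ≤ (⌈‖z‖⌉₊ : ℝ) := by positivity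
      linarith
    · have := hcast (BN s + 2)
      linarith
    · rw [mem_ball_zero_iff]
      exact hBN1 z
  · exact HH_eq b ε hP _ (by exact_mod_cast hs)

/-- `√2 I₂` is not badly approximable. -/
lemma not_bad : ¬ BadMatrix (√2 • (1 : Matrix (Fin 2) (Fin 2) ℝ)) := by
  rintro ⟨u, δ, hδ, c, hc, h⟩
  -- an integer vector orthogonal to `u`
  obtain ⟨v, hv, huv⟩ : ∃ v : Fin 2 → ℤ, v ≠ 0 ∧ ∑ i, v i * u i = 0 := by
    by_cases hu : u = 0
    · refine ⟨fun _ => 1, fun h => ?_, by simp [hu]⟩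
      have := congrFun h 0
      simp at this
    · refine ⟨![-u 1, u 0], fun h => hu ?_, ?_⟩
      · funext j
        have h0 := congrFun h 0
        have h1 := congrFun h 1
        simp at h0 h1
        fin_cases j
        · exact h1
        · exact h0
      · rw [Fin.sum_univ_two]
        simp
        ring
  have h1 := h v hv 0
  have e : (∑ i, (v i : ℝ) * ((√2 • (1 : Matrix (Fin 2) (Fin 2) ℝ)).transpose.mulVec
      fun j => (u j : ℝ)) i) = 0 := by
    rw [Matrix.transpose_smul, Matrix.transpose_one, Matrix.smul_mulVec, Matrix.one_mulVec]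
    have : ∑ i, (v i : ℝ) * (√2 • fun j => (u j : ℝ)) i = √2 * ((∑ i, v i * u i : ℤ) : ℝ) := by
      push_cast
      rw [Finset.mul_sum]
      refine Finset.sum_congr rfl fun i _ => ?_
      rw [Pi.smul_apply, smul_eq_mul]
      ring
    rw [this, huv]
    simp
  rw [e] at h1
  have h2 : 0 < nrm v := lt_of_lt_of_le one_pos (one_le_nrm hv)
  have h3 : 0 < c * nrm v ^ (-δ) := mul_pos hc (Real.rpow_pos_of_pos h2 _)
  simp at h1
  linarith

omit P b ε in
/-- Rapidly decreasing sequences are absolutely summable. -/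
lemma summable_rapid {b : (Fin q → Fin 2 → ℤ) → ℂ} (hb : IsRapid b) :
    Summable fun l => ‖b l‖ := by
  obtain ⟨C, hC0, hC⟩ := rapid_bound hb 2
  have hg : Summable fun y : Fin 2 → ℤ => ∏ j, (max 1 |(y j : ℝ)|) ^ (-2 : ℝ) :=
    summable_prod_fin summable_max (fun x => by positivity) 2
  have hgg : Summable fun l : Fin q → Fin 2 → ℤ => ∏ i, ∏ j, (max 1 |(l i j : ℝ)|) ^ (-2 : ℝ) :=
    summable_prod_fin hg (fun y => Finset.prod_nonneg fun j _ => by positivity) q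
  refine Summable.of_nonneg_of_le (fun _ => norm_nonneg _) (fun l => ?_) (hgg.mul_left C)
  set W0 := ∏ i, ∏ j, max 1 |(l i j : ℝ)| with hW
  have hW1 : 1 ≤ W0 := one_le_prod_real _ _ fun i _ => one_le_prod_real _ _ fun j _ =>
    le_max_left _ _
  have hWe : ∏ i, ∏ j, (max 1 |(l i j : ℝ)|) ^ (-2 : ℝ) = (W0 ^ 2)⁻¹ := by
    rw [hW, ← Finset.prod_pow, ← Finset.prod_inv_distrib]
    refine Finset.prod_congr rfl fun i _ => ?_
    rw [← Finset.prod_pow, ← Finset.prod_inv_distrib]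
    refine Finset.prod_congr rfl fun j _ => ?_
    rw [Real.rpow_neg (by positivity)]
    norm_num
  rw [hWe, ← div_eq_mul_inv, le_div_iff₀ (by positivity), mul_comm]
  exact hC l

omit P b ε in
/-- The series `g₀(s)` converges absolutely for `Re s > 2 + d`. -/
lemma summable_outer {P : MvPolynomial (Fin 2) ℂ} (hP : P.IsHomogeneous d)
    {b : (Fin q → Fin 2 → ℤ) → ℂ} (hb : IsRapid b) (ε : Fin q → ℤ)
    (Θ : Matrix (Fin 2) (Fin 2) ℝ) {s : ℂ} (hs : (2 + d : ℝ) < s.re) :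
    Summable fun l : Fin q → Fin 2 → ℤ => ‖if ∑ i, ε i • l i = 0 then 0 else
      b l * f P (Θ.mulVec fun j => (((∑ i, ε i • l i) j : ℤ) : ℝ)) s‖ := by
  have hT := summable_term hP hs
  refine Summable.of_nonneg_of_le (fun _ => norm_nonneg _) (fun l => ?_)
    ((summable_rapid hb).mul_right (∑' k, ‖term P s k‖))
  have hT0 : 0 ≤ ∑' k, ‖term P s k‖ := tsum_nonneg fun _ => norm_nonneg _
  split_ifs
  · rw [norm_zero]
    positivity
  · rw [norm_mul]
    refine mul_le_mul_of_nonneg_left ?_ (norm_nonneg _)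
    refine tsum_of_norm_bounded hT.hasSum fun k => ?_
    rw [norm_mul, chi_norm, mul_one]

end main

/-- **Q1 of MP_6f2e8a_an is disproved** (in its negated form, with `n = 2`): the matrix `√2 I₂` has
property (H) and is not badly approximable. (The last two clauses record that all the series
involved converge absolutely for `Re s > 2 + d`.) -/
theorem result :
    (PropertyH (√2 • (1 : Matrix (Fin 2) (Fin 2) ℝ)) ∧
      ¬ BadMatrix (√2 • (1 : Matrix (Fin 2) (Fin 2) ℝ))) ∧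
    (∀ (d : ℕ) (P : MvPolynomial (Fin 2) ℂ), P.IsHomogeneous d → ∀ (a : Fin 2 → ℝ) (s : ℂ),
      (2 + d : ℝ) < s.re → Summable fun k => term P s k * chi a k) ∧
    (∀ (q d : ℕ) (P : MvPolynomial (Fin 2) ℂ), P.IsHomogeneous d →
      ∀ b : (Fin q → Fin 2 → ℤ) → ℂ, IsRapid b → ∀ (ε : Fin q → ℤ)
        (Θ : Matrix (Fin 2) (Fin 2) ℝ) (s : ℂ), (2 + d : ℝ) < s.re →
        Summable fun l : Fin q → Fin 2 → ℤ => ‖if ∑ i, ε i • l i = 0 then 0 else
          b l * f P (Θ.mulVec fun j => (((∑ i, ε i • l i) j : ℤ) : ℝ)) s‖) :=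
  ⟨⟨propertyH_sqrt_two, not_bad⟩,
    fun _ _ hP a _ hs => summable_mul_chi (summable_term hP hs) a,
    fun _ _ _ hP _ hb ε Θ _ hs => summable_outer hP hb ε Θ hs⟩

end Pool.Agent.Results.MP_6f2e8a_an.NotNecessary
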